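import Mathlib

/-!
# MP_4318ff_ag, part S: removal of a multiplier

If `w z ^ (p ^ j)` is integral over `R` for all `j`, then `z` is integral over `R`
(`R` Noetherian and integrally closed in the field `F`, `K / F` separable, characteristic `p`).
-/

set_option autoImplicit false

namespace Pool.Agent.Lib.MP_4318ff_ag

open Polynomial IntermediateField

section Field

variable {F' K' : Type*} [Field F'] [Field K'] [Algebra F' K'] [Algebra.IsSeparable F' K']
  (p : ℕ) [ExpChar F' p]

/-- The minimal polynomial of `z ^ (p ^ j)` is the conjugate under Frobenius of the minimal polynomial of `z`. -/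
theorem minpoly_pow_expChar_pow (z : K') (j : ℕ) :
    minpoly F' (z ^ p ^ j) = (minpoly F' z).map (iterateFrobenius F' p j) := by
  have hz : IsIntegral F' z := (Algebra.IsSeparable.isIntegral F' z)
  have hzp : IsIntegral F' (z ^ p ^ j) := hz.pow _
  have : ExpChar K' p := expChar_of_injective_algebraMap (algebraMap F' K').injective p
  have hd : minpoly F' (z ^ p ^ j) ∣ (minpoly F' z).map (iterateFrobenius F' p j) := by
    apply minpoly.dvd
    have h1 : aeval (z ^ p ^ j) ((minpoly F' z).map (iterateFrobenius F' p j)) =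
        iterateFrobenius K' p j (aeval z (minpoly F' z)) := by
      rw [aeval_def, eval₂_map, aeval_def, hom_eval₂, iterateFrobenius_def]
      congr 1
      ext x
      simp [iterateFrobenius_def]
    rw [h1, minpoly.aeval, map_zero]
  have hdeg : (minpoly F' (z ^ p ^ j)).natDegree = (minpoly F' z).natDegree := by
    rw [← IntermediateField.adjoin.finrank hzp, ← IntermediateField.adjoin.finrank hz,
      ← adjoin_simple_eq_adjoin_pow_expChar_pow_of_isSeparable' F' K' z p j]
  have hm1 := minpoly.monic hzp
  have hm2 : ((minpoly F' z).map (iterateFrobenius F' p j)).Monic := (minpoly.monic hz).map _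
  exact (eq_of_monic_of_dvd_of_natDegree_le hm1 hm2 hd
    (by rw [hdeg, (minpoly.monic hz).natDegree_map])).symm

/-- The coefficients of the minimal polynomial of `w z ^ (p ^ j)`. -/
theorem coeff_minpoly_mul_pow (w : F') (hw : w ≠ 0) (z : K') (j i : ℕ) :
    (minpoly F' (w • z ^ p ^ j)).coeff i =
      (minpoly F' z).coeff i ^ p ^ j * w ^ ((minpoly F' z).natDegree - i) := by
  have hz : IsIntegral F' z := (Algebra.IsSeparable.isIntegral F' z)
  rw [IsIntegrallyClosed.minpoly_smul hw (hz.pow _), minpoly_pow_expChar_pow p z j, coeff_scaleRoots,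
    (minpoly.monic hz).natDegree_map, coeff_map, iterateFrobenius_def]

end Field

section Ring

variable {R F' K' : Type*} [CommRing R] [IsDomain R] [IsNoetherianRing R] [Field F'] [Field K'] [Algebra R F']
  [Algebra F' K'] [Algebra R K'] [IsScalarTower R F' K'] [FaithfulSMul R F']

/-- In a Noetherian ring, integrally closed in a field: `w c ^ (p ^ j) ∈ R` for all `j` implies `c ∈ R`. -/
theorem mem_range_of_mul_pow_mem (hR : ∀ f : F', IsIntegral R f → f ∈ (algebraMap R F').range) (q : ℕ) (hq : 1 < q)
    (w : R) (hw : w ≠ 0) (c : F') (h : ∀ j : ℕ, algebraMap R F' w * c ^ q ^ j ∈ (algebraMap R F').range) :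
    c ∈ (algebraMap R F').range := by
  apply hR
  have hal : IsAlmostIntegral R c := by
    refine ⟨w, mem_nonZeroDivisors_of_ne_zero hw, fun m => ?_⟩
    rw [Algebra.smul_def]
    apply hR
    obtain ⟨j, hj⟩ : ∃ j, m ≤ q ^ j := ⟨m, (Nat.lt_pow_self hq).le⟩
    have hpos : 0 < q ^ j := pow_pos (by omega) _
    apply IsIntegral.of_pow hpos
    have e : (algebraMap R F' w * c ^ m) ^ q ^ j =
        algebraMap R F' w ^ (q ^ j - m) * (algebraMap R F' w * c ^ q ^ j) ^ m := by
      rw [mul_pow, mul_pow, ← mul_assoc, ← pow_add, Nat.sub_add_cancel hj, ← pow_mul, ← pow_mul, mul_comm m]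
    rw [e]
    obtain ⟨r, hr⟩ := h j
    rw [← hr]
    exact (isIntegral_algebraMap.pow _).mul (isIntegral_algebraMap.pow _)
  apply hal.isIntegral_of_nonZeroDivisors_le_comap
  intro x hx
  have hx0 : x ≠ 0 := nonZeroDivisors.ne_zero hx
  exact mem_nonZeroDivisors_of_ne_zero (by
    rw [Ne, FaithfulSMul.algebraMap_eq_zero_iff]
    exact hx0)

/-- **Removal.** -/
theorem isIntegral_of_mul_pow [Algebra.IsSeparable F' K']
    (hR : ∀ f : F', IsIntegral R f → f ∈ (algebraMap R F').range) (p : ℕ) [Fact p.Prime] [CharP F' p]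
    (w : R) (hw : w ≠ 0) (z : K') (h : ∀ j : ℕ, IsIntegral R (algebraMap R K' w * z ^ p ^ j)) : IsIntegral R z := by
  have hp : 1 < p := (Fact.out : p.Prime).one_lt
  have hexp : ExpChar F' p := ExpChar.prime Fact.out
  have hz : IsIntegral F' z := (Algebra.IsSeparable.isIntegral F' z)
  have hw' : algebraMap R F' w ≠ 0 := by
    rw [Ne, FaithfulSMul.algebraMap_eq_zero_iff]
    exact hw
  have hc : ∀ i, (minpoly F' z).coeff i ∈ (algebraMap R F').range := by
    intro i
    apply mem_range_of_mul_pow_mem hR p hp (w ^ ((minpoly F' z).natDegree - i)) (pow_ne_zero _ hw)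
    intro j
    apply hR
    have h1 := h j
    have e1 : algebraMap R K' w * z ^ p ^ j = (algebraMap R F' w) • z ^ p ^ j := by
      rw [Algebra.smul_def, ← IsScalarTower.algebraMap_apply R F' K']
    rw [e1] at h1
    have h2 : IsIntegral R ((minpoly F' ((algebraMap R F' w) • z ^ p ^ j)).coeff i) := by
      obtain ⟨f, hf, hfy⟩ := id h1
      have hd : minpoly F' ((algebraMap R F' w) • z ^ p ^ j) ∣ f.map (algebraMap R F') := by
        apply minpoly.dvd
        rw [aeval_def, eval₂_map, ← IsScalarTower.algebraMap_eq R F' K']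
        exact hfy
      have h := integralClosure.mem_lifts_of_monic_of_dvd_map (R := R) F' hf (minpoly.monic h1.tower_top) hd
      rw [lifts_iff_coeff_lifts] at h
      obtain ⟨c, hc⟩ := h i
      rw [← hc]
      exact c.2
    rw [coeff_minpoly_mul_pow p _ hw' z j i] at h2
    rw [map_pow, mul_comm]
    exact h2
  have hl : minpoly F' z ∈ lifts (algebraMap R F') := by
    rw [lifts_iff_coeff_lifts]
    intro n
    exact hc n
  obtain ⟨g, hg, -, hm⟩ := lifts_and_degree_eq_and_monic hl (minpoly.monic hz)
  refine ⟨g, hm, ?_⟩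
  rw [IsScalarTower.algebraMap_eq R F' K', ← eval₂_map, hg]
  exact minpoly.aeval F' z

end Ring

end Pool.Agent.Lib.MP_4318ff_ag
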