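import Mathlib

/-!
# MP_4318ff_ag, part S: derivations and integral closures

`R` integrally closed with fraction field `F'`, `K' / F'` finite separable with an integral generator `θ`, `D` a derivation of
`K'` which maps `R` into elements integral over `R`: `disc ^ 2 * D y` is integral for every integral `y`.
-/

set_option autoImplicit false

namespace Pool.Agent.Lib.MP_4318ff_ag

open Polynomial

section

variable {R F' K' : Type*} [CommRing R] [Field F'] [Field K'] [Algebra R F'] [Algebra F' K']
  [Algebra R K'] [IsScalarTower R F' K']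

/-- The norm of an integral element is a multiple of the element, with an integral cofactor. -/
theorem discDer_norm [FiniteDimensional F' K']
    [Algebra.IsSeparable F' K'] (w : K') (hw : IsIntegral R w) :
    ∃ c : K', IsIntegral R c ∧ algebraMap F' K' (Algebra.norm F' w) = w * c := by
  have hwF : IsIntegral F' w := hw.tower_top
  -- the constant coefficient
  have h0 : ∃ c : K', IsIntegral R c ∧ algebraMap F' K' ((minpoly F' w).coeff 0) = w * c := by
    have hc : ∀ i, IsIntegral R (algebraMap F' K' ((minpoly F' w).coeff i)) := by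
      intro i
      obtain ⟨f, hf, hfy⟩ := id hw
      have hd : minpoly F' w ∣ f.map (algebraMap R F') := by
        apply minpoly.dvd
        rw [aeval_def, eval₂_map, ← IsScalarTower.algebraMap_eq R F' K']
        exact hfy
      have h := integralClosure.mem_lifts_of_monic_of_dvd_map (R := R) F' hf (minpoly.monic hwF) hd
      rw [lifts_iff_coeff_lifts] at h
      obtain ⟨c, hc⟩ := h i
      rw [← hc]
      exact c.2.algebraMap
    refine ⟨-(aeval w (divX (minpoly F' w))), ?_, ?_⟩
    · apply IsIntegral.neg
      rw [aeval_eq_sum_range]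
      apply IsIntegral.sum
      intro i _
      rw [Algebra.smul_def, coeff_divX]
      exact (hc _).mul (hw.pow _)
    · have h1 := minpoly.aeval F' w
      conv at h1 => rw [← divX_mul_X_add (minpoly F' w)]
      rw [map_add, map_mul, aeval_X, aeval_C] at h1
      linear_combination h1
  obtain ⟨c, hc, hc0⟩ := h0
  have hn : Algebra.norm F' w = ((-1) ^ (minpoly F' w).natDegree * (minpoly F' w).coeff 0) ^
      Module.finrank (IntermediateField.adjoin F' {w}) K' := by
    rw [Algebra.norm_eq_norm_adjoin]
    congr 1
    have := Algebra.PowerBasis.norm_gen_eq_coeff_zero_minpoly (IntermediateField.adjoin.powerBasis hwF)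
    rw [IntermediateField.adjoin.powerBasis_gen, IntermediateField.minpoly_gen,
      IntermediateField.adjoin.powerBasis_dim] at this
    exact this
  have hpos : 0 < Module.finrank (IntermediateField.adjoin F' {w}) K' := Module.finrank_pos
  obtain ⟨m, hm⟩ : ∃ m, Module.finrank (IntermediateField.adjoin F' {w}) K' = m + 1 := ⟨_, (Nat.succ_pred_eq_of_pos hpos).symm⟩
  refine ⟨(-1) ^ (minpoly F' w).natDegree * c * ((-1) ^ (minpoly F' w).natDegree * (w * c)) ^ m, ?_, ?_⟩
  · have h1 : IsIntegral R ((-1 : K') ^ (minpoly F' w).natDegree) := (IsIntegral.neg isIntegral_one).pow _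
    exact (h1.mul hc).mul ((h1.mul (hw.mul hc)).pow _)
  · rw [hn, hm, map_pow, map_mul, map_pow, map_neg, map_one, hc0, pow_succ]
    ring

variable [IsDomain R] [IsFractionRing R F'] [IsIntegrallyClosed R] [FiniteDimensional F' K'] [Algebra.IsSeparable F' K']

omit [IsDomain R] [FiniteDimensional F' K'] [Algebra.IsSeparable F' K'] in
theorem discDer_range (f : F') (hf : IsIntegral R f) : f ∈ (algebraMap R F').range := by
  obtain ⟨r, hr⟩ := (IsIntegrallyClosed.isIntegral_iff (R := R) (K := F')).1 hf
  exact ⟨r, hr⟩

/-- The discriminant is a multiple of the value of the derivative of the minimal polynomial. -/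
theorem discDer_discr (B : PowerBasis F' K') (hB : IsIntegral R B.gen) :
    ∃ c : K', IsIntegral R c ∧
      algebraMap F' K' (Algebra.discr F' B.basis) = aeval B.gen (derivative (minpoly F' B.gen)) * c := by
  have hw : IsIntegral R (aeval B.gen (derivative (minpoly F' B.gen))) := by
    rw [minpoly.isIntegrallyClosed_eq_field_fractions' F' hB, derivative_map, aeval_map_algebraMap,
      aeval_eq_sum_range]
    apply IsIntegral.sum
    intro i _
    rw [Algebra.smul_def]
    exact isIntegral_algebraMap.mul (hB.pow _)
  obtain ⟨c, hc, h⟩ := discDer_norm (R := R) (F' := F') _ hw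
  rw [Algebra.discr_powerBasis_eq_norm, map_mul, h, map_pow, map_neg, map_one]
  refine ⟨(-1) ^ (Module.finrank F' K' * (Module.finrank F' K' - 1) / 2) * c, ?_, by ring⟩
  exact ((IsIntegral.neg isIntegral_one).pow _).mul hc

omit [IsDomain R] [IsFractionRing R F'] [IsIntegrallyClosed R] [Algebra.IsSeparable F' K'] in
theorem discDer_discr_isIntegral (B : PowerBasis F' K') (hB : IsIntegral R B.gen) :
    IsIntegral R (algebraMap F' K' (Algebra.discr F' B.basis)) := by
  apply IsIntegral.algebraMap
  apply Algebra.discr_isIntegral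
  intro i
  rw [B.coe_basis]
  exact hB.pow _

variable {k : Type*} [CommRing k] [Algebra k K']

/-- The derivative of `f(θ)`. -/
theorem discDer_aeval (D : Derivation k K' K') (hD : ∀ r : R, IsIntegral R (D (algebraMap R K' r))) (θ : K')
    (hθ : IsIntegral R θ) (f : R[X]) :
    ∃ A : K', IsIntegral R A ∧ D (aeval θ f) = A + aeval θ (derivative f) * D θ := by
  induction f using Polynomial.induction_on with
  | C a =>
    refine ⟨D (algebraMap R K' a), hD a, ?_⟩
    simp
  | add f g hf hg =>
    obtain ⟨A, hA, h1⟩ := hf
    obtain ⟨B, hB, h2⟩ := hg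
    refine ⟨A + B, hA.add hB, ?_⟩
    rw [map_add, map_add, h1, h2, derivative_add, map_add]
    ring
  | monomial n a h =>
    obtain ⟨A, hA, h1⟩ := h
    refine ⟨A * θ, hA.mul hθ, ?_⟩
    have e : C a * X ^ (n + 1) = (C a * X ^ n) * X := by rw [pow_succ, mul_assoc]
    have e2 : derivative (C a * X ^ n * X) = derivative (C a * X ^ n) * X + C a * X ^ n := by
      rw [derivative_mul (f := C a * X ^ n), derivative_X, mul_one]
    have e3 : aeval θ (C a * X ^ n * X) = aeval θ (C a * X ^ n) * θ := by rw [map_mul _ (C a * X ^ n), aeval_X]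
    have e4 : aeval θ (derivative (C a * X ^ n) * X) = aeval θ (derivative (C a * X ^ n)) * θ := by
      rw [map_mul _ (derivative (C a * X ^ n)), aeval_X]
    rw [e, e3, Derivation.leibniz, h1, e2, map_add, e4]
    simp only [smul_eq_mul]
    ring

/-- `disc * D θ` is integral. -/
theorem discDer_gen (B : PowerBasis F' K') (hB : IsIntegral R B.gen) (D : Derivation k K' K')
    (hD : ∀ r : R, IsIntegral R (D (algebraMap R K' r))) :
    IsIntegral R (algebraMap F' K' (Algebra.discr F' B.basis) * D B.gen) := by
  obtain ⟨c, hc, h⟩ := discDer_discr (R := R) B hB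
  obtain ⟨A, hA, h1⟩ := discDer_aeval D hD B.gen hB (minpoly R B.gen)
  rw [minpoly.aeval, map_zero] at h1
  have h2 : aeval B.gen (derivative (minpoly F' B.gen)) = aeval B.gen (derivative (minpoly R B.gen)) := by
    rw [minpoly.isIntegrallyClosed_eq_field_fractions' F' hB, derivative_map, aeval_map_algebraMap]
  rw [h, h2]
  have e : aeval B.gen (derivative (minpoly R B.gen)) * c * D B.gen = -(c * A) := by
    linear_combination (-c) * h1
  rw [e]
  exact (hc.mul hA).neg

/-- **`disc ^ 2 * D y` is integral for every integral `y`.** -/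
theorem discDer_sq (B : PowerBasis F' K') (hB : IsIntegral R B.gen) (D : Derivation k K' K')
    (hD : ∀ r : R, IsIntegral R (D (algebraMap R K' r))) (y : K') (hy : IsIntegral R y) :
    IsIntegral R (algebraMap F' K' (Algebra.discr F' B.basis) ^ 2 * D y) := by
  have h1 := Algebra.discr_mul_isIntegral_mem_adjoin (K := F') hB hy
  rw [Algebra.adjoin_singleton_eq_range_aeval] at h1
  obtain ⟨f, hf⟩ := h1
  set δ := algebraMap F' K' (Algebra.discr F' B.basis) with hδ
  have hδi : IsIntegral R δ := discDer_discr_isIntegral (R := R) B hB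
  have hδr : ∃ r : R, δ = algebraMap R K' r := by
    have h2 : IsIntegral R (Algebra.discr F' B.basis) := by
      apply Algebra.discr_isIntegral
      intro i
      rw [B.coe_basis]
      exact hB.pow _
    obtain ⟨r, hr⟩ := discDer_range _ h2
    exact ⟨r, by rw [hδ, ← hr, ← IsScalarTower.algebraMap_apply]⟩
  obtain ⟨A, hA, h2⟩ := discDer_aeval D hD B.gen hB f
  have hf' : aeval B.gen f = δ * y := by
    rw [hδ, ← Algebra.smul_def]
    exact hf
  rw [hf', Derivation.leibniz] at h2
  simp only [smul_eq_mul] at h2
  obtain ⟨r, hr⟩ := hδr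
  have h3 : IsIntegral R (D δ) := by rw [hr]; exact hD r
  have h4 : IsIntegral R (aeval B.gen (derivative f)) := by
    rw [aeval_eq_sum_range]
    apply IsIntegral.sum
    intro i _
    rw [Algebra.smul_def]
    exact isIntegral_algebraMap.mul (hB.pow _)
  have h5 := discDer_gen (R := R) B hB D hD
  have e : δ ^ 2 * D y = δ * A + aeval B.gen (derivative f) * (δ * D B.gen) - δ * (y * D δ) := by
    linear_combination δ * h2
  rw [e]
  exact ((hδi.mul hA).add (h4.mul h5)).sub (hδi.mul (hy.mul h3))

end

end Pool.Agent.Lib.MP_4318ff_ag
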