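import Pool.Agent.Lib.MP_4318ff_ag.S.Inf

/-!
# MP_4318ff_ag, part S: duality over `E(X)`

`K / F` finite separable, `F = E(X)`. Every `E`-linear functional `φ` on `K` which vanishes on the integral closures of
`E[X]` and of the local ring at infinity is of the form `φ y = res (Tr (h y))`.
-/

set_option autoImplicit false

open Polynomial

namespace Pool.Agent.Lib.MP_4318ff_ag.S

variable {E F K : Type*} [Field E] [Field F] [Field K] [Algebra E[X] F] [IsFractionRing E[X] F] [Algebra F K]

variable (E F K) in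
/-- The constants in `K`. -/
noncomputable def emb : E →+* K := (algebraMap F K).comp ((algebraMap E[X] F).comp (C : E →+* E[X]))

variable (E F K) in
/-- `X` in `K`. -/
noncomputable def xK : K := algebraMap F K (xx (E := E))

theorem xK_ne_zero : xK E F K ≠ 0 := by
  unfold xK
  rw [Ne, FaithfulSMul.algebraMap_eq_zero_iff]
  exact xx_ne_zero

/-- For every `y` in `K` and all large `m` the element `x⁻ᵐ y` is integral at infinity. -/
theorem exists_integral_inf [Algebra.IsAlgebraic F K] (y : K) :
    ∃ M : ℕ, ∀ m : ℕ, M ≤ m → IsIntegral (infRing (E := E) (F := F)) ((xK E F K)⁻¹ ^ m * y) := by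
  have h0 : Algebra.IsAlgebraic (infRing (E := E) (F := F)) K :=
    (IsFractionRing.comap_isAlgebraic_iff (A := infRing (E := E) (F := F)) (K := F) (C := K)).2 inferInstance
  obtain ⟨r, hr, hi⟩ := (h0.isAlgebraic y).exists_integral_multiple
  have hx : (xx (E := E) : F) ≠ 0 := xx_ne_zero
  have hr' : (r : F) ≠ 0 := fun h => hr (Subtype.ext h)
  have h2 := (mem_infRing_iff_ord hr').1 r.2
  obtain ⟨n, hn⟩ := Int.eq_ofNat_of_zero_le h2
  refine ⟨n, fun m hm => ?_⟩
  have h3 : ((xx (E := E) : F)⁻¹) ^ m * (r : F)⁻¹ ∈ infRing (E := E) (F := F) := by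
    rw [mem_infRing_iff_ord (mul_ne_zero (pow_ne_zero _ (inv_ne_zero hx)) (inv_ne_zero hr')),
      ordInf_mul (pow_ne_zero _ (inv_ne_zero hx)) (inv_ne_zero hr'), ordInf_inv hr', hn, inv_pow, ← zpow_natCast,
      ordInf_inv (zpow_ne_zero _ hx), ordInf_zpow]
    omega
  have h4 : (xK E F K)⁻¹ ^ m * y = (⟨_, h3⟩ : infRing (E := E) (F := F)) • (r • y) := by
    rw [Subring.smul_def, Subring.smul_def, Algebra.smul_def, Algebra.smul_def, ← mul_assoc, ← map_mul,
      inv_mul_cancel_right₀ hr', map_pow, map_inv₀]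
    rfl
  rw [h4]
  exact hi.smul _

section Functional

variable [Algebra E[X] K] [IsScalarTower E[X] F K] [FiniteDimensional F K] [Algebra.IsSeparable F K]

/-- The functional `φ` vanishes on the two integral closures. -/
structure IsFun (φ : K →+ E) : Prop where
  smul : ∀ (a : E) (y : K), φ (emb E F K a * y) = a * φ y
  fin : ∀ y : K, IsIntegral E[X] y → φ y = 0
  inf : ∀ y : K, IsIntegral (infRing (E := E) (F := F)) y → φ y = 0

variable {φ : K →+ E} (hφ : IsFun (F := F) φ)

include hφ

theorem psi_bdd (y : K) : BddBelow (Function.support fun n : ℤ => φ (xK E F K ^ (n - 1) * y)) := by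
  obtain ⟨M, hM⟩ := exists_integral_inf (E := E) (F := F) y
  refine ⟨-(M : ℤ), ?_⟩
  intro n hn
  by_contra hlt
  apply hn
  have h1 := hM (1 - n).toNat (by omega)
  have h2 : (xK E F K)⁻¹ ^ (1 - n).toNat = xK E F K ^ (n - 1) := by
    rw [inv_pow, ← zpow_natCast, ← zpow_neg]
    congr 1
    omega
  rw [h2] at h1
  exact hφ.inf _ h1

/-- The series attached to `y`. -/
noncomputable def psi (y : K) : HahnSeries ℤ E :=
  HahnSeries.ofSuppBddBelow (fun n : ℤ => φ (xK E F K ^ (n - 1) * y)) (psi_bdd hφ y)

theorem psi_coeff (y : K) (n : ℤ) : (psi hφ y).coeff n = φ (xK E F K ^ (n - 1) * y) := by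
  unfold psi
  rw [HahnSeries.coeff_ofSuppBddBelow]

theorem psi_add (y z : K) : psi hφ (y + z) = psi hφ y + psi hφ z := by
  ext n
  rw [HahnSeries.coeff_add, psi_coeff, psi_coeff, psi_coeff, mul_add, map_add]

theorem psi_emb (a : E) (y : K) : psi hφ (emb E F K a * y) = HahnSeries.C a * psi hφ y := by
  ext n
  rw [HahnSeries.C_mul_eq_smul, HahnSeries.coeff_smul, psi_coeff, psi_coeff, smul_eq_mul, ← hφ.smul]
  congr 1
  ring

theorem psi_x (y : K) : psi hφ (xK E F K * y) = HahnSeries.single (-1) 1 * psi hφ y := by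
  ext n
  have := HahnSeries.coeff_single_mul_add (r := (1 : E)) (x := psi hφ y) (a := n + 1) (b := -1)
  rw [show n + 1 + -1 = n by ring, one_mul] at this
  rw [this, psi_coeff, psi_coeff]
  congr 1
  rw [← mul_assoc, ← zpow_add_one₀ xK_ne_zero]
  congr 2
  ring

theorem psi_poly (q : E[X]) (y : K) :
    psi hφ (algebraMap F K (algebraMap E[X] F q) * y) = expPoly E q * psi hφ y := by
  induction q using Polynomial.induction_on' generalizing y with
  | add p q hp hq =>
    rw [map_add, map_add, add_mul, psi_add, hp, hq, map_add, add_mul]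
  | monomial m a =>
    induction m generalizing y with
    | zero =>
      rw [Polynomial.monomial_zero_left, expPoly_C]
      exact psi_emb hφ a y
    | succ m ih =>
      rw [← Polynomial.monomial_mul_X, map_mul, map_mul, map_mul, expPoly_X, mul_assoc, mul_assoc, ih, ← psi_x]
      rfl

theorem psi_F (f : F) (y : K) : psi hφ (algebraMap F K f * y) = expInf (E := E) F f * psi hφ y := by
  obtain ⟨p, q, hq, h⟩ := exists_div_monic (E := E) f
  have hq' : algebraMap E[X] F q ≠ 0 := by
    rw [Ne, FaithfulSMul.algebraMap_eq_zero_iff]; exact hq.ne_zero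
  have h1 : expPoly E q ≠ 0 := by
    rw [← expInf_algebraMap (F := F)]
    exact expInf_ne_zero hq'
  apply mul_left_cancel₀ h1
  rw [← psi_poly, ← mul_assoc, ← map_mul, mul_comm _ f, h, psi_poly, ← mul_assoc]
  congr 1
  rw [← expInf_algebraMap (F := F) p, ← expInf_algebraMap (F := F) q, ← h, map_mul, mul_comm]

/-- The series of an integral element is a polynomial. -/
theorem psi_integral {y : K} (hy : IsIntegral E[X] y) : ∃ q : E[X], expPoly E q = psi hφ y := by
  apply exists_expPoly
  intro n hn
  rw [psi_coeff]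
  apply hφ.fin
  have h1 : xK E F K ^ (n - 1) = algebraMap E[X] K (X ^ (n - 1).toNat) := by
    rw [IsScalarTower.algebraMap_apply E[X] F K, map_pow, map_pow]
    change xK E F K ^ (n - 1) = xK E F K ^ (n - 1).toNat
    rw [← zpow_natCast]
    congr 1
    omega
  rw [h1]
  exact isIntegral_algebraMap.mul hy

/-- The series of an element integral at infinity. -/
theorem psi_integral_inf {y : K} (hy : IsIntegral (infRing (E := E) (F := F)) y) {n : ℤ} (hn : n < 2) :
    (psi hφ y).coeff n = 0 := by
  rw [psi_coeff]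
  apply hφ.inf
  have h1 : xK E F K ^ (n - 1) = algebraMap F K ((xx (E := E))⁻¹ ^ (1 - n).toNat) := by
    rw [map_pow, map_inv₀]
    change xK E F K ^ (n - 1) = (xK E F K)⁻¹ ^ (1 - n).toNat
    rw [inv_pow, ← zpow_natCast, ← zpow_neg]
    congr 1
    omega
  rw [h1]
  have h2 : ((xx (E := E))⁻¹ ^ (1 - n).toNat : F) ∈ infRing (E := E) (F := F) := pow_mem inv_xx_mem _
  have h3 : algebraMap F K ((xx (E := E))⁻¹ ^ (1 - n).toNat) =
      algebraMap (infRing (E := E) (F := F)) K ⟨_, h2⟩ := rfl
  rw [h3]
  exact isIntegral_algebraMap.mul hy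

/-- The series of every element is in the image of `F`. -/
theorem psi_mem_range (y : K) : ∃ f : F, expInf (E := E) F f = psi hφ y := by
  have h0 : Algebra.IsAlgebraic E[X] K :=
    (IsFractionRing.comap_isAlgebraic_iff (A := E[X]) (K := F) (C := K)).2 inferInstance
  obtain ⟨r, hr, hi⟩ := (h0.isAlgebraic y).exists_integral_multiple
  obtain ⟨q, hq⟩ := psi_integral hφ hi
  have hr' : algebraMap E[X] F r ≠ 0 := by
    rw [Ne, FaithfulSMul.algebraMap_eq_zero_iff]; exact hr
  have h1 : expPoly E r ≠ 0 := by
    rw [← expInf_algebraMap (F := F)]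
    exact expInf_ne_zero hr'
  refine ⟨algebraMap E[X] F q / algebraMap E[X] F r, ?_⟩
  rw [map_div₀, expInf_algebraMap, expInf_algebraMap, hq, div_eq_iff h1, Algebra.smul_def,
    IsScalarTower.algebraMap_apply E[X] F K, psi_poly, mul_comm]

/-- The duality: the functional is the residue of the trace. -/
theorem exists_trace : ∃ h : K, ∀ y : K, expInf (E := E) F (Algebra.trace F K (h * y)) = psi hφ y := by
  choose Φ hΦ using psi_mem_range hφ
  have hadd : ∀ y z, Φ (y + z) = Φ y + Φ z := by
    intro y z
    apply expInf_injective (E := E)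
    rw [map_add, hΦ, hΦ, hΦ, psi_add]
  have hsmul : ∀ (f : F) (y : K), Φ (f • y) = f * Φ y := by
    intro f y
    apply expInf_injective (E := E)
    rw [map_mul, hΦ, hΦ, Algebra.smul_def, psi_F]
  let L : Module.Dual F K := { toFun := Φ, map_add' := hadd, map_smul' := hsmul }
  refine ⟨((Algebra.traceForm F K).toDual (traceForm_nondegenerate F K)).symm L, fun y => ?_⟩
  have h1 := LinearMap.BilinForm.apply_toDual_symm_apply (B := Algebra.traceForm F K)
    (hB := traceForm_nondegenerate F K) L y
  rw [Algebra.traceForm_apply] at h1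
  rw [h1]
  exact hΦ y

end Functional

section Main

variable [Algebra E[X] K] [IsScalarTower E[X] F K] [FiniteDimensional F K] [Algebra.IsSeparable F K]

variable (E F) in
/-- The sum of the two integral closures. -/
def InSum (c : K) : Prop := ∃ a b : K, IsIntegral E[X] a ∧ IsIntegral (infRing (E := E) (F := F)) b ∧ c = a + b

variable (E F) in
/-- `h` is in the dual of the two integral closures. -/
structure IsDual (h : K) : Prop where
  fin : ∀ y : K, IsIntegral E[X] y → ∃ q : E[X], Algebra.trace F K (h * y) = algebraMap E[X] F q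
  inf : ∀ y : K, IsIntegral (infRing (E := E) (F := F)) y →
    xx (E := E) ^ 2 * Algebra.trace F K (h * y) ∈ infRing (E := E) (F := F)

/-- An element outside the sum of the two integral closures is detected by the residue of a trace. -/
theorem exists_dual {c : K} (hc : ¬ InSum E F c) :
    ∃ h : K, IsDual E F h ∧ res (E := E) (Algebra.trace F K (h * c)) ≠ 0 := by
  letI : Algebra E K := (emb E F K).toAlgebra
  have hsm : ∀ (a : E) (y : K), a • y = emb E F K a * y := fun a y => by
    rw [Algebra.smul_def]; rfl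
  have hf : ∀ (a : E), emb E F K a = algebraMap E[X] K (C a) := fun a => by
    rw [IsScalarTower.algebraMap_apply E[X] F K]; rfl
  have hi : ∀ (a : E), emb E F K a = algebraMap (infRing (E := E) (F := F)) K ⟨_, algebraMap_C_mem a⟩ :=
    fun a => rfl
  let W : Submodule E K :=
    { carrier := {c | InSum E F c}
      add_mem' := by
        rintro _ _ ⟨a, b, ha, hb, rfl⟩ ⟨a', b', ha', hb', rfl⟩
        exact ⟨a + a', b + b', ha.add ha', hb.add hb', by ring⟩
      zero_mem' := ⟨0, 0, isIntegral_zero, isIntegral_zero, by ring⟩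
      smul_mem' := by
        rintro e _ ⟨a, b, ha, hb, rfl⟩
        refine ⟨emb E F K e * a, emb E F K e * b, ?_, ?_, ?_⟩
        · rw [hf]
          exact isIntegral_algebraMap.mul ha
        · rw [hi]
          exact isIntegral_algebraMap.mul hb
        · rw [hsm]
          ring }
  have hcW : c ∉ W := hc
  obtain ⟨f, hfc, hfW⟩ := Submodule.exists_le_ker_of_notMem hcW
  have hφ : IsFun (F := F) (f.toAddMonoidHom : K →+ E) :=
    { smul := fun a y => by
        change f (emb E F K a * y) = a * f y
        rw [← hsm, map_smul, smul_eq_mul]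
      fin := fun y hy => hfW (show y ∈ W from ⟨y, 0, hy, isIntegral_zero, (add_zero y).symm⟩)
      inf := fun y hy => hfW (show y ∈ W from ⟨0, y, isIntegral_zero, hy, (zero_add y).symm⟩) }
  obtain ⟨h, hh⟩ := exists_trace hφ
  refine ⟨h, ⟨fun y hy => ?_, fun y hy => ?_⟩, ?_⟩
  · obtain ⟨q, hq⟩ := psi_integral hφ hy
    refine ⟨q, expInf_injective (E := E) ?_⟩
    rw [hh, expInf_algebraMap, hq]
  · intro n hn
    have := coeff_xx_zpow_mul (E := E) 2 (Algebra.trace F K (h * y)) n
    rw [show (2 : ℤ) = ((2 : ℕ) : ℤ) from rfl, zpow_natCast] at this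
    rw [this, hh]
    exact psi_integral_inf hφ hy (by norm_num; omega)
  · unfold res
    rw [hh, psi_coeff, sub_self, zpow_zero, one_mul]
    exact hfc

/-- The converse: the residue of the trace of `h c` vanishes on the sum of the integral closures. -/
theorem IsDual.not_inSum {h : K} (hh : IsDual E F h) {c : K}
    (hc : res (E := E) (Algebra.trace F K (h * c)) ≠ 0) : ¬ InSum E F c := by
  rintro ⟨a, b, ha, hb, rfl⟩
  apply hc
  rw [mul_add, map_add, res_add]
  obtain ⟨q, hq⟩ := hh.fin a ha
  rw [hq, res_algebraMap, zero_add]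
  have h1 := hh.inf b hb (-1) (by norm_num)
  have := coeff_xx_zpow_mul (E := E) 2 (Algebra.trace F K (h * b)) (-1)
  rw [show (2 : ℤ) = ((2 : ℕ) : ℤ) from rfl, zpow_natCast, h1] at this
  exact this.symm

end Main

end Pool.Agent.Lib.MP_4318ff_ag.S
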