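import Mathlib

/-!
# MP_4318ff_ag, part S: expansion at infinity

`F = E(X)` (any fraction field of `E[X]`), `expInf : F →+* E((1/X))`, the local ring `infRing` of the place `X = ∞`,
and the residue `res f = coefficient of 1/X`.
-/

set_option autoImplicit false

open Polynomial

namespace Pool.Agent.Lib.MP_4318ff_ag.S

variable (E F : Type*) [Field E] [Field F] [Algebra E[X] F] [IsFractionRing E[X] F]

/-- The substitution `X ↦ 1/t`. -/
noncomputable def expPoly : E[X] →+* HahnSeries ℤ E :=
  Polynomial.eval₂RingHom HahnSeries.C (HahnSeries.single (-1 : ℤ) (1 : E))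

variable {E}

theorem single_neg_pow (m : ℕ) :
    (HahnSeries.single (-1 : ℤ) (1 : E) : HahnSeries ℤ E) ^ m = HahnSeries.single (-(m : ℤ)) 1 := by
  rw [HahnSeries.single_pow]
  simp

theorem coeff_expPoly (q : E[X]) (n : ℤ) :
    (expPoly E q).coeff n = if n ≤ 0 then q.coeff n.natAbs else 0 := by
  unfold expPoly
  induction q using Polynomial.induction_on' with
  | add p q hp hq =>
    rw [map_add, HahnSeries.coeff_add, hp, hq]
    split_ifs <;> simp
  | monomial m a =>
    rw [Polynomial.coe_eval₂RingHom, Polynomial.eval₂_monomial, single_neg_pow]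
    rw [HahnSeries.C_apply, HahnSeries.single_mul_single, HahnSeries.coeff_single, Polynomial.coeff_monomial]
    simp only [zero_add, mul_one]
    by_cases hn : n ≤ 0
    · rw [if_pos hn]
      congr 1
      apply propext
      omega
    · rw [if_neg hn, if_neg (by omega)]

theorem expPoly_injective : Function.Injective (expPoly E) := by
  rw [injective_iff_map_eq_zero]
  intro q hq
  ext m
  have := coeff_expPoly q (-(m : ℤ))
  rw [hq] at this
  simpa using this.symm

theorem expPoly_X : expPoly E X = HahnSeries.single (-1 : ℤ) 1 := by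
  simp [expPoly]

theorem expPoly_C (a : E) : expPoly E (C a) = HahnSeries.C a := by
  simp [expPoly]

/-- The expansion at infinity. -/
noncomputable def expInf : F →+* HahnSeries ℤ E :=
  IsFractionRing.lift (A := E[X]) (g := expPoly E) expPoly_injective

variable {F}

theorem expInf_algebraMap (q : E[X]) : expInf F (algebraMap E[X] F q) = expPoly E q := by
  unfold expInf
  exact IsFractionRing.lift_algebraMap _ _

theorem expInf_injective : Function.Injective (expInf (E := E) F) := (expInf F).injective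

theorem expInf_ne_zero {f : F} (hf : f ≠ 0) : expInf (E := E) F f ≠ 0 :=
  (_root_.map_ne_zero (expInf (E := E) F)).2 hf

/-- The coefficient of `1/X` in the expansion at infinity. -/
noncomputable def res (f : F) : E := (expInf (E := E) F f).coeff 1

/-- A Hahn series over `ℤ` is a polynomial in `1/t` if its coefficients vanish in positive degrees. -/
theorem exists_expPoly {s : HahnSeries ℤ E} (hs : ∀ n : ℤ, 0 < n → s.coeff n = 0) :
    ∃ q : E[X], expPoly E q = s := by
  by_cases h0 : s = 0
  · exact ⟨0, by rw [map_zero, h0]⟩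
  set N := s.order.natAbs with hN
  refine ⟨∑ m ∈ Finset.range (N + 1), C (s.coeff (-(m : ℤ))) * X ^ m, ?_⟩
  ext n
  rw [coeff_expPoly]
  by_cases hn : n ≤ 0
  · rw [if_pos hn, Polynomial.finsetSum_coeff]
    simp only [Polynomial.coeff_C_mul, Polynomial.coeff_X_pow, mul_ite, mul_one, mul_zero]
    rw [Finset.sum_ite_eq]
    have hna : -(n.natAbs : ℤ) = n := by omega
    rw [hna]
    split_ifs with h
    · rfl
    · have : n < s.order := by
        simp only [Finset.mem_range] at h
        omega
      exact (HahnSeries.coeff_eq_zero_of_lt_order this).symm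
  · rw [if_neg hn, hs n (by omega)]

/-- The local ring of the place `X = ∞`. -/
noncomputable def infRing : Subring F where
  carrier := {f | ∀ n : ℤ, n < 0 → (expInf (E := E) F f).coeff n = 0}
  mul_mem' := by
    intro a b ha hb n hn
    by_cases ha0 : a = 0
    · simp [ha0]
    by_cases hb0 : b = 0
    · simp [hb0]
    have ea : expInf (E := E) F a ≠ 0 := expInf_ne_zero ha0
    have eb : expInf (E := E) F b ≠ 0 := expInf_ne_zero hb0
    have h1 := (HahnSeries.le_order_iff_forall ea).2 ha
    have h2 := (HahnSeries.le_order_iff_forall eb).2 hb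
    rw [map_mul]
    apply HahnSeries.coeff_eq_zero_of_lt_order
    rw [HahnSeries.order_mul ea eb]
    omega
  one_mem' := by
    intro n hn
    rw [map_one, HahnSeries.coeff_one, if_neg (by omega)]
  add_mem' := by
    intro a b ha hb n hn
    rw [map_add, HahnSeries.coeff_add, ha n hn, hb n hn, add_zero]
  zero_mem' := by
    intro n hn
    simp
  neg_mem' := by
    intro a ha n hn
    rw [map_neg, HahnSeries.coeff_neg, ha n hn, neg_zero]

theorem mem_infRing {f : F} :
    f ∈ infRing (E := E) (F := F) ↔ ∀ n : ℤ, n < 0 → (expInf (E := E) F f).coeff n = 0 := Iff.rfl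

/-- The order of vanishing at infinity. -/
noncomputable def ordInf (f : F) : ℤ := (expInf (E := E) F f).order

theorem mem_infRing_iff_ord {f : F} (hf : f ≠ 0) : f ∈ infRing (E := E) (F := F) ↔ 0 ≤ ordInf (E := E) f :=
  (HahnSeries.le_order_iff_forall (expInf_ne_zero hf)).symm

theorem ordInf_mul {f g : F} (hf : f ≠ 0) (hg : g ≠ 0) :
    ordInf (E := E) (f * g) = ordInf (E := E) f + ordInf (E := E) g := by
  unfold ordInf
  rw [map_mul]
  exact HahnSeries.order_mul (expInf_ne_zero hf) (expInf_ne_zero hg)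

theorem ordInf_one : ordInf (E := E) (1 : F) = 0 := by
  unfold ordInf
  rw [map_one, HahnSeries.order_one]

theorem ordInf_inv {f : F} (hf : f ≠ 0) : ordInf (E := E) f⁻¹ = - ordInf (E := E) f := by
  have := ordInf_mul (E := E) hf (inv_ne_zero hf)
  rw [mul_inv_cancel₀ hf, ordInf_one] at this
  omega

/-- `X` as an element of `F`. -/
noncomputable def xx : F := algebraMap E[X] F X

theorem xx_ne_zero : (xx (E := E) : F) ≠ 0 := by
  unfold xx
  rw [Ne, FaithfulSMul.algebraMap_eq_zero_iff]
  exact X_ne_zero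

theorem expInf_xx : expInf (E := E) F (xx (E := E)) = HahnSeries.single (-1 : ℤ) 1 := by
  unfold xx
  rw [expInf_algebraMap, expPoly_X]

theorem expInf_xx_zpow (m : ℤ) : expInf (E := E) F (xx (E := E) ^ m) = HahnSeries.single (-m) 1 := by
  have h1 : ∀ m : ℕ, expInf (E := E) F (xx (E := E) ^ m) = HahnSeries.single (-(m : ℤ)) 1 := by
    intro m
    rw [map_pow, expInf_xx, single_neg_pow]
  obtain ⟨n, rfl | rfl⟩ := m.eq_nat_or_neg
  · rw [zpow_natCast, h1]
  · rw [zpow_neg, zpow_natCast, map_inv₀, h1, neg_neg]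
    apply inv_eq_of_mul_eq_one_left
    rw [HahnSeries.single_mul_single]
    simp

theorem ordInf_algebraMap {q : E[X]} (hq : q ≠ 0) : ordInf (E := E) (algebraMap E[X] F q) = - (q.natDegree : ℤ) := by
  unfold ordInf
  rw [expInf_algebraMap]
  have hne : expPoly E q ≠ 0 := fun h => hq (expPoly_injective (by rw [h, map_zero]))
  apply le_antisymm
  · apply HahnSeries.order_le_of_coeff_ne_zero
    rw [coeff_expPoly, if_pos (by omega)]
    simpa using hq
  · rw [HahnSeries.le_order_iff_forall hne]
    intro j hj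
    rw [coeff_expPoly, if_pos (by omega)]
    apply Polynomial.coeff_eq_zero_of_natDegree_lt
    omega

theorem coeff_xx_zpow_mul (m : ℤ) (f : F) (n : ℤ) :
    (expInf (E := E) F (xx (E := E) ^ m * f)).coeff n = (expInf (E := E) F f).coeff (n + m) := by
  rw [map_mul, expInf_xx_zpow]
  have := HahnSeries.coeff_single_mul_add (r := (1 : E)) (x := expInf (E := E) F f) (a := n + m) (b := -m)
  rw [show n + m + -m = n by ring] at this
  rw [this, one_mul]

theorem algebraMap_C_mem (a : E) : algebraMap E[X] F (C a) ∈ infRing (E := E) (F := F) := by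
  intro n hn
  rw [expInf_algebraMap, expPoly_C, HahnSeries.C_apply, HahnSeries.coeff_single_of_ne (by omega)]

theorem inv_xx_mem : (xx (E := E))⁻¹ ∈ infRing (E := E) (F := F) := by
  rw [← zpow_neg_one]
  intro n hn
  rw [expInf_xx_zpow, HahnSeries.coeff_single_of_ne (by omega)]

/-- Elements of the local ring at infinity in terms of polynomials. -/
theorem mem_infRing_of_div {p q : E[X]} {f : F} (hq : q ≠ 0) (hpq : p.natDegree ≤ q.natDegree)
    (h : f * algebraMap E[X] F q = algebraMap E[X] F p) : f ∈ infRing (E := E) (F := F) := by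
  by_cases hf : f = 0
  · rw [hf]; exact zero_mem _
  have hq' : algebraMap E[X] F q ≠ 0 := by
    rw [Ne, FaithfulSMul.algebraMap_eq_zero_iff]; exact hq
  have hp : p ≠ 0 := by
    rintro rfl
    rw [map_zero] at h
    exact (mul_ne_zero hf hq') h
  rw [mem_infRing_iff_ord hf]
  have := ordInf_mul (E := E) hf hq'
  rw [h, ordInf_algebraMap hp, ordInf_algebraMap hq] at this
  omega

theorem exists_div_monic (f : F) :
    ∃ p q : E[X], q.Monic ∧ f * algebraMap E[X] F q = algebraMap E[X] F p := by
  obtain ⟨a, b, hb, hab⟩ := IsFractionRing.div_surjective (A := E[X]) f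
  have hb0 : b ≠ 0 := nonZeroDivisors.ne_zero hb
  have hb' : algebraMap E[X] F b ≠ 0 := by
    rw [Ne, FaithfulSMul.algebraMap_eq_zero_iff]; exact hb0
  refine ⟨a * C b.leadingCoeff⁻¹, b * C b.leadingCoeff⁻¹, monic_mul_leadingCoeff_inv hb0, ?_⟩
  rw [map_mul, map_mul, ← mul_assoc, ← hab, div_mul_cancel₀ _ hb']

theorem ordInf_eq_of_div {p q : E[X]} {f : F} (hf : f ≠ 0) (hq : q ≠ 0)
    (h : f * algebraMap E[X] F q = algebraMap E[X] F p) :
    ordInf (E := E) f = (q.natDegree : ℤ) - p.natDegree := by
  have hq' : algebraMap E[X] F q ≠ 0 := by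
    rw [Ne, FaithfulSMul.algebraMap_eq_zero_iff]; exact hq
  have hp : p ≠ 0 := by
    rintro rfl
    rw [map_zero] at h
    exact (mul_ne_zero hf hq') h
  have := ordInf_mul (E := E) hf hq'
  rw [h, ordInf_algebraMap hp, ordInf_algebraMap hq] at this
  omega

theorem exists_div_of_mem {f : F} (hf : f ∈ infRing (E := E) (F := F)) :
    ∃ p q : E[X], q.Monic ∧ p.natDegree ≤ q.natDegree ∧ f * algebraMap E[X] F q = algebraMap E[X] F p := by
  by_cases hf0 : f = 0
  · exact ⟨0, 1, monic_one, by simp, by simp [hf0]⟩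
  obtain ⟨p, q, hq, h⟩ := exists_div_monic (E := E) f
  refine ⟨p, q, hq, ?_, h⟩
  have := ordInf_eq_of_div hf0 hq.ne_zero h
  rw [mem_infRing_iff_ord hf0] at hf
  omega

theorem mem_infRing_iff_div {f : F} : f ∈ infRing (E := E) (F := F) ↔
    ∃ p q : E[X], q.Monic ∧ p.natDegree ≤ q.natDegree ∧ f * algebraMap E[X] F q = algebraMap E[X] F p :=
  ⟨exists_div_of_mem, fun ⟨_, _, hq, hpq, h⟩ => mem_infRing_of_div hq.ne_zero hpq h⟩

/-- `x f` is regular at infinity iff the degree of `f` is negative. -/
theorem xx_mul_mem_iff_div {f : F} : xx (E := E) * f ∈ infRing (E := E) (F := F) ↔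
    ∃ p q : E[X], q.Monic ∧ p.degree < q.degree ∧ f * algebraMap E[X] F q = algebraMap E[X] F p := by
  by_cases hf0 : f = 0
  · constructor
    · intro _
      refine ⟨0, 1, monic_one, by simp, by simp [hf0]⟩
    · intro _
      rw [hf0, mul_zero]
      exact zero_mem _
  have hx : (xx (E := E) : F) ≠ 0 := xx_ne_zero
  have hxo : ordInf (E := E) (xx (E := E) : F) = -1 := by
    unfold xx
    rw [ordInf_algebraMap X_ne_zero, natDegree_X]
    norm_num
  rw [mem_infRing_iff_ord (mul_ne_zero hx hf0), ordInf_mul hx hf0, hxo]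
  constructor
  · intro h1
    obtain ⟨p, q, hq, h⟩ := exists_div_monic (E := E) f
    refine ⟨p, q, hq, ?_, h⟩
    have := ordInf_eq_of_div hf0 hq.ne_zero h
    apply Polynomial.degree_lt_degree
    omega
  · rintro ⟨p, q, hq, hpq, h⟩
    have := ordInf_eq_of_div hf0 hq.ne_zero h
    have hp : p ≠ 0 := by
      rintro rfl
      rw [map_zero] at h
      have hq' : algebraMap E[X] F q ≠ 0 := by
        rw [Ne, FaithfulSMul.algebraMap_eq_zero_iff]; exact hq.ne_zero
      exact (mul_ne_zero hf0 hq') h
    have := natDegree_lt_natDegree hp hpq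
    omega

/-- The residue of a polynomial is zero. -/
theorem res_algebraMap (p : E[X]) : res (E := E) (algebraMap E[X] F p) = 0 := by
  unfold res
  rw [expInf_algebraMap, coeff_expPoly, if_neg (by omega)]

theorem res_add (f g : F) : res (E := E) (f + g) = res (E := E) f + res (E := E) g := by
  unfold res
  rw [map_add, HahnSeries.coeff_add]

/-- The residue of a proper fraction. -/
theorem res_of_degree_lt {p q : E[X]} {f : F} (hq : q.Monic) (hpq : p.degree < q.degree)
    (h : f * algebraMap E[X] F q = algebraMap E[X] F p) : res (E := E) f = p.coeff (q.natDegree - 1) := by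
  have hq' : algebraMap E[X] F q ≠ 0 := by
    rw [Ne, FaithfulSMul.algebraMap_eq_zero_iff]; exact hq.ne_zero
  by_cases hf0 : f = 0
  · have hp : p = 0 := by
      rw [hf0, zero_mul] at h
      exact (FaithfulSMul.algebraMap_eq_zero_iff E[X] F).1 h.symm
    rw [hf0, hp]
    simp [res]
  have hp : p ≠ 0 := by
    rintro rfl
    rw [map_zero] at h
    exact (mul_ne_zero hf0 hq') h
  have ho := ordInf_eq_of_div hf0 hq.ne_zero h
  have hlt := natDegree_lt_natDegree hp hpq
  by_cases h1 : q.natDegree - 1 = p.natDegree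
  · have e1 : (expInf (E := E) F f * expPoly E q).coeff ((expInf (E := E) F f).order + (expPoly E q).order) =
        (expInf (E := E) F f).leadingCoeff * (expPoly E q).leadingCoeff := HahnSeries.coeff_mul_order_add_order _ _
    have hoq : (expPoly E q).order = - (q.natDegree : ℤ) := by
      have := ordInf_algebraMap (F := F) hq.ne_zero
      rwa [ordInf, expInf_algebraMap] at this
    have hof : (expInf (E := E) F f).order = 1 := by
      have : ordInf (E := E) f = 1 := by omega
      exact this
    rw [← expInf_algebraMap (F := F) q, ← map_mul, h, expInf_algebraMap, expInf_algebraMap, hoq, hof,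
      HahnSeries.leadingCoeff_eq, HahnSeries.leadingCoeff_eq, hoq, hof, coeff_expPoly, coeff_expPoly,
      if_pos (by omega), if_pos (by omega)] at e1
    have hm : q.coeff (-(q.natDegree : ℤ)).natAbs = 1 := by
      rw [Int.natAbs_neg, Int.natAbs_natCast]
      exact hq
    rw [hm, mul_one] at e1
    have hn : (1 + -(q.natDegree : ℤ)).natAbs = q.natDegree - 1 := by omega
    rw [hn] at e1
    exact e1.symm
  · rw [Polynomial.coeff_eq_zero_of_natDegree_lt (by omega)]
    apply HahnSeries.coeff_eq_zero_of_lt_order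
    have : (1 : ℤ) < ordInf (E := E) f := by omega
    exact this

/-- The residue of a fraction with a monic denominator. -/
theorem res_eq_coeff {p q : E[X]} {f : F} (hq : q.Monic)
    (h : f * algebraMap E[X] F q = algebraMap E[X] F p) :
    res (E := E) f = (p %ₘ q).coeff (q.natDegree - 1) := by
  have hq' : algebraMap E[X] F q ≠ 0 := by
    rw [Ne, FaithfulSMul.algebraMap_eq_zero_iff]; exact hq.ne_zero
  have h1 : f = algebraMap E[X] F (p /ₘ q) + (f - algebraMap E[X] F (p /ₘ q)) := by ring
  rw [h1, res_add, res_algebraMap, zero_add]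
  apply res_of_degree_lt hq (degree_modByMonic_lt p hq)
  rw [sub_mul, h]
  nth_rewrite 1 [← modByMonic_add_div p q]
  rw [map_add, map_mul]
  ring

/-- The uniformiser at infinity. -/
noncomputable def tInf : infRing (E := E) (F := F) := ⟨(xx (E := E))⁻¹, inv_xx_mem⟩

theorem ordInf_xx : ordInf (E := E) (xx (E := E) : F) = -1 := by
  unfold xx
  rw [ordInf_algebraMap X_ne_zero, natDegree_X]
  norm_num

theorem ordInf_zpow (m : ℤ) : ordInf (E := E) ((xx (E := E) : F) ^ m) = -m := by
  unfold ordInf
  rw [expInf_xx_zpow, HahnSeries.order_single one_ne_zero]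

theorem isUnit_infRing_iff (a : infRing (E := E) (F := F)) : IsUnit a ↔ a ≠ 0 ∧ ordInf (E := E) (a : F) = 0 := by
  constructor
  · rintro ⟨u, rfl⟩
    refine ⟨u.ne_zero, ?_⟩
    have h1 : (((u : infRing (E := E) (F := F)) : F)) ≠ 0 := by
      simp
    have h2 : (((u⁻¹ : (infRing (E := E) (F := F))ˣ) : infRing (E := E) (F := F)) : F) ≠ 0 := by
      simp
    have h3 := (mem_infRing_iff_ord h1).1 (u : infRing (E := E) (F := F)).2
    have h4 := (mem_infRing_iff_ord h2).1 ((u⁻¹ : (infRing (E := E) (F := F))ˣ) : infRing (E := E) (F := F)).2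
    have h5 := ordInf_mul (E := E) h1 h2
    have h6 : (((u : infRing (E := E) (F := F)) : F)) *
      (((u⁻¹ : (infRing (E := E) (F := F))ˣ) : infRing (E := E) (F := F)) : F) = 1 := by
      have := u.mul_inv
      exact congrArg Subtype.val this
    rw [h6, ordInf_one] at h5
    omega
  · rintro ⟨h0, h⟩
    have h0' : (a : F) ≠ 0 := fun h => h0 (Subtype.ext h)
    have h2 : (a : F)⁻¹ ∈ infRing (E := E) (F := F) := by
      rw [mem_infRing_iff_ord (inv_ne_zero h0'), ordInf_inv h0', h]
      norm_num
    refine IsUnit.of_mul_eq_one ⟨(a : F)⁻¹, h2⟩ ?_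
    apply Subtype.ext
    exact mul_inv_cancel₀ h0'

instance : IsFractionRing (infRing (E := E) (F := F)) F := by
  refine IsFractionRing.of_field _ _ fun f => ?_
  have hx : (xx (E := E) : F) ≠ 0 := xx_ne_zero
  by_cases hf : f = 0
  · exact ⟨0, 1, by rw [map_zero, zero_div, hf]⟩
  set n := (ordInf (E := E) f).natAbs with hn
  have h1 : ((xx (E := E) : F)⁻¹) ^ n ∈ infRing (E := E) (F := F) := pow_mem inv_xx_mem n
  have h2 : f * ((xx (E := E) : F)⁻¹) ^ n ∈ infRing (E := E) (F := F) := by
    rw [mem_infRing_iff_ord (mul_ne_zero hf (pow_ne_zero _ (inv_ne_zero hx))),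
      ordInf_mul hf (pow_ne_zero _ (inv_ne_zero hx)), inv_pow, ← zpow_natCast, ordInf_inv (zpow_ne_zero _ hx),
      ordInf_zpow]
    omega
  refine ⟨⟨_, h2⟩, ⟨_, h1⟩, ?_⟩
  change f = (f * ((xx (E := E) : F)⁻¹) ^ n) / ((xx (E := E) : F)⁻¹) ^ n
  rw [mul_div_cancel_right₀ _ (pow_ne_zero _ (inv_ne_zero hx))]

theorem tInf_irreducible : Irreducible (tInf (E := E) (F := F)) := by
  have hx : (xx (E := E) : F) ≠ 0 := xx_ne_zero
  refine ⟨?_, ?_⟩
  · rw [isUnit_infRing_iff]
    rintro ⟨_, h⟩
    have : ordInf (E := E) ((xx (E := E) : F)⁻¹) = 0 := h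
    rw [ordInf_inv hx, ordInf_xx] at this
    omega
  · intro a b hab
    have hab' : (xx (E := E) : F)⁻¹ = a * b := congrArg Subtype.val hab
    have ha : (a : F) ≠ 0 := by
      intro h
      rw [h, zero_mul] at hab'
      exact inv_ne_zero hx hab'
    have hb : (b : F) ≠ 0 := by
      intro h
      rw [h, mul_zero] at hab'
      exact inv_ne_zero hx hab'
    have h1 := ordInf_mul (E := E) ha hb
    rw [← hab', ordInf_inv hx, ordInf_xx] at h1
    have h2 := (mem_infRing_iff_ord ha).1 a.2
    have h3 := (mem_infRing_iff_ord hb).1 b.2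
    rw [isUnit_infRing_iff, isUnit_infRing_iff]
    have ha' : a ≠ 0 := fun h => ha (by rw [h]; rfl)
    have hb' : b ≠ 0 := fun h => hb (by rw [h]; rfl)
    by_cases h : ordInf (E := E) (a : F) = 0
    · exact Or.inl ⟨ha', h⟩
    · exact Or.inr ⟨hb', by omega⟩

theorem isDVR_aux : IsDiscreteValuationRing.HasUnitMulPowIrreducibleFactorization (infRing (E := E) (F := F)) := by
  refine ⟨tInf, tInf_irreducible, ?_⟩
  intro a ha
  have hx : (xx (E := E) : F) ≠ 0 := xx_ne_zero
  have ha' : (a : F) ≠ 0 := fun h => ha (Subtype.ext h)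
  have h2 := (mem_infRing_iff_ord ha').1 a.2
  obtain ⟨n, hn⟩ := Int.eq_ofNat_of_zero_le h2
  refine ⟨n, ?_⟩
  have h3 : (xx (E := E) : F) ^ n * (a : F) ≠ 0 := mul_ne_zero (pow_ne_zero _ hx) ha'
  have h4 : ordInf (E := E) ((xx (E := E) : F) ^ n * (a : F)) = 0 := by
    rw [ordInf_mul (pow_ne_zero _ hx) ha', hn, ← zpow_natCast, ordInf_zpow]
    omega
  have h5 : (xx (E := E) : F) ^ n * (a : F) ∈ infRing (E := E) (F := F) := by
    rw [mem_infRing_iff_ord h3, h4]
  have h6 : IsUnit (⟨(xx (E := E) : F) ^ n * (a : F), h5⟩ : infRing (E := E) (F := F)) := by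
    rw [isUnit_infRing_iff]
    exact ⟨fun h => h3 (congrArg Subtype.val h), h4⟩
  refine ⟨h6.unit, ?_⟩
  apply Subtype.ext
  change ((xx (E := E) : F)⁻¹) ^ n * ((xx (E := E) : F) ^ n * (a : F)) = a
  rw [← mul_assoc, ← mul_pow, inv_mul_cancel₀ hx, one_pow, one_mul]

instance : IsDiscreteValuationRing (infRing (E := E) (F := F)) :=
  IsDiscreteValuationRing.ofHasUnitMulPowIrreducibleFactorization isDVR_aux

end Pool.Agent.Lib.MP_4318ff_ag.S
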