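import Mathlib

/-!
# MP_4318ff_ag, part S: an element killed by `d/dt` and `d/ds` is a `p`-th power
-/

set_option autoImplicit false

namespace Pool.Agent.Lib.MP_4318ff_ag

open Polynomial IntermediateField

section OneVar

variable {k K' : Type*} [CommRing k] [Field K'] [Algebra k K'] (p : ℕ) [Fact p.Prime] [CharP K' p]

theorem pthRoot_derivation_eval (D : Derivation k K' K') (t : K') (ht : D t = 1) (f : K'[X])
    (hf : ∀ i, D (f.coeff i) = 0) : D (f.eval t) = (derivative f).eval t := by
  have h1 : f.eval t = ∑ i ∈ Finset.range (f.natDegree + 1), f.coeff i * t ^ i := eval_eq_sum_range t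
  rw [h1, map_sum, derivative_eval]
  rw [sum_over_range' f (by simp) (f.natDegree + 1) (Nat.lt_succ_self _)]
  apply Finset.sum_congr rfl
  intro i _
  rw [Derivation.leibniz, hf i, smul_zero, add_zero, Derivation.leibniz_pow, ht]
  simp
  ring

omit [Fact p.Prime] in
theorem pthRoot_eq_zero (D : Derivation k K' K') (t : K') (ht : D t = 1) :
    ∀ (n : ℕ), n < p → ∀ f : K'[X], f.natDegree ≤ n → (∀ i, D (f.coeff i) = 0) → f.eval t = 0 → f = 0 := by
  intro n
  induction n with
  | zero =>
    intro _ f hf _ h0
    rw [eq_C_of_natDegree_le_zero hf] at h0 ⊢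
    rw [eval_C] at h0
    rw [h0, C_0]
  | succ n ih =>
    intro hn f hf hD h0
    have h1 : derivative f = 0 := by
      apply ih (by omega) (derivative f)
      · exact (natDegree_derivative_le f).trans (by omega)
      · intro i
        rw [coeff_derivative]
        have : ((i : K') + 1) = ((i + 1 : ℕ) : K') := by push_cast; ring
        rw [this, Derivation.leibniz, hD, Derivation.map_natCast]
        simp
      · rw [← pthRoot_derivation_eval D t ht f hD, h0, map_zero]
    have h2 : f.natDegree = 0 := by
      by_contra hne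
      have h3 := congrArg (fun g => coeff g (f.natDegree - 1)) h1
      simp only [coeff_derivative, coeff_zero] at h3
      rw [Nat.sub_add_cancel (by omega), coeff_natDegree] at h3
      have h4 : ((f.natDegree - 1 : ℕ) : K') + 1 = ((f.natDegree : ℕ) : K') := by
        have : f.natDegree = (f.natDegree - 1) + 1 := by omega
        conv_rhs => rw [this]
        push_cast
        ring
      rw [h4] at h3
      rcases mul_eq_zero.1 h3 with h3 | h3
      · rw [leadingCoeff_eq_zero] at h3
        rw [h3] at hne
        simp at hne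
      · rw [CharP.cast_eq_zero_iff K' p] at h3
        have := Nat.le_of_dvd (by omega) h3
        omega
    rw [eq_C_of_natDegree_eq_zero h2] at h0 ⊢
    rw [eval_C] at h0
    rw [h0, C_0]

/-- One variable: `D t = 1`, `D` kills the subring `L` which contains `t ^ p`; then the kernel of `D` on `L[t]` is `L`. -/
theorem pthRoot_one (D : Derivation k K' K') (t : K') (ht : D t = 1) (L : Subring K') (hL : ∀ x ∈ L, D x = 0)
    (htp : t ^ p ∈ L) (δ : K') (hδ : δ ∈ Algebra.adjoin L {t}) (h0 : D δ = 0) : δ ∈ L := by
  have hp : p.Prime := Fact.out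
  rw [Algebra.adjoin_singleton_eq_range_aeval] at hδ
  obtain ⟨f, rfl⟩ := hδ
  set q : L[X] := X ^ p - C ⟨t ^ p, htp⟩ with hq
  have hqm : q.Monic := monic_X_pow_sub_C _ hp.ne_zero
  have hqd : q.natDegree = p := natDegree_X_pow_sub_C
  have hq0 : aeval t q = 0 := by
    rw [hq, map_sub, map_pow, aeval_X, aeval_C]
    exact sub_self _
  set g := f %ₘ q with hg
  have hfg : aeval t f = aeval t g := by
    rw [hg]
    have := modByMonic_add_div f q
    conv_lhs => rw [← this]
    rw [map_add, map_mul, hq0, zero_mul, add_zero]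
  have hgd : g.natDegree < p := by
    rw [← hqd]
    exact natDegree_modByMonic_lt f hqm (by
      intro h
      rw [h, natDegree_one] at hqd
      exact hp.ne_zero hqd.symm)
  change D (aeval t f) = 0 at h0
  change aeval t f ∈ L
  rw [hfg] at h0 ⊢
  set G : K'[X] := g.map (algebraMap L K') with hG
  have hGe : aeval t g = G.eval t := by rw [hG, eval_map, aeval_def]
  have hGc : ∀ i, D (G.coeff i) = 0 := by
    intro i
    rw [hG, coeff_map]
    exact hL _ (g.coeff i).2
  have hGd : G.natDegree < p := lt_of_le_of_lt natDegree_map_le hgd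
  rw [hGe, pthRoot_derivation_eval D t ht G hGc] at h0
  have h1 : derivative G = 0 := by
    apply pthRoot_eq_zero p D t ht (p - 1) (by have := hp.pos; omega) _ _ _ h0
    · exact (natDegree_derivative_le G).trans (by omega)
    · intro i
      rw [coeff_derivative]
      have : ((i : K') + 1) = ((i + 1 : ℕ) : K') := by push_cast; ring
      rw [this, Derivation.leibniz, hGc, Derivation.map_natCast]
      simp
  have h2 : G.natDegree = 0 := by
    by_contra hne
    have h3 := congrArg (fun g => coeff g (G.natDegree - 1)) h1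
    simp only [coeff_derivative, coeff_zero] at h3
    rw [Nat.sub_add_cancel (by omega), coeff_natDegree] at h3
    have h4 : ((G.natDegree - 1 : ℕ) : K') + 1 = ((G.natDegree : ℕ) : K') := by
      have : G.natDegree = (G.natDegree - 1) + 1 := by omega
      conv_rhs => rw [this]
      push_cast
      ring
    rw [h4] at h3
    rcases mul_eq_zero.1 h3 with h3 | h3
    · rw [leadingCoeff_eq_zero] at h3
      rw [h3] at hne
      simp at hne
    · rw [CharP.cast_eq_zero_iff K' p] at h3
      have := Nat.le_of_dvd (by omega) h3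
      omega
  rw [hGe, eq_C_of_natDegree_eq_zero h2, eval_C, hG, coeff_map]
  exact (g.coeff 0).2

end OneVar

section TwoVar

variable {k K' : Type*} [Field k] [Field K'] [Algebra k K'] (p : ℕ) [Fact p.Prime] [CharP K' p]

/-- The field is generated as a ring by the `p`-th powers and `t, s`. -/
theorem pthRoot_mem (hk : ∀ a : k, ∃ b : k, b ^ p = a) (t s : K')
    [Algebra.IsSeparable (IntermediateField.adjoin k {t, s}) K'] (A : Subring K') (hA : ∀ x : K', x ^ p ∈ A)
    (ht : t ∈ A) (hs : s ∈ A) (δ : K') : δ ∈ A := by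
  have hp : p.Prime := Fact.out
  have hkA : ∀ a : k, algebraMap k K' a ∈ A := by
    intro a
    obtain ⟨b, rfl⟩ := hk a
    rw [map_pow]
    exact hA _
  have hpoly : ∀ x ∈ Algebra.adjoin k {t, s}, x ∈ A := by
    intro x hx
    induction hx using Algebra.adjoin_induction with
    | mem x hx =>
      rcases hx with rfl | rfl
      · exact ht
      · exact hs
    | algebraMap a => exact hkA a
    | add x y _ _ hx hy => exact add_mem hx hy
    | mul x y _ _ hx hy => exact mul_mem hx hy
  have hF : ∀ x ∈ IntermediateField.adjoin k {t, s}, x ∈ A := by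
    intro x hx
    rw [IntermediateField.mem_adjoin_iff_div] at hx
    obtain ⟨r, hr, u, hu, rfl⟩ := hx
    by_cases h0 : u = 0
    · rw [h0, div_zero]
      exact zero_mem _
    have : r / u = r * u ^ (p - 1) * (u⁻¹) ^ p := by
      have h1 : u ^ (p - 1) * (u⁻¹) ^ p = u⁻¹ := by
        have h2 : p = (p - 1) + 1 := by have := hp.pos; omega
        conv_lhs =>
          rw [h2]
          simp only [Nat.add_sub_cancel]
        rw [pow_succ, inv_pow, ← mul_assoc, mul_inv_cancel₀ (pow_ne_zero _ h0), one_mul]
      rw [mul_assoc, h1, div_eq_mul_inv]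
    rw [this]
    exact mul_mem (mul_mem (hpoly _ hr) (pow_mem (hpoly _ hu) _)) (hA _)
  have hexpK : ExpChar K' p := ExpChar.prime hp
  have hexp : ExpChar (IntermediateField.adjoin k {t, s}) p :=
    (algebraMap (IntermediateField.adjoin k {t, s}) K').expChar
      (algebraMap (IntermediateField.adjoin k {t, s}) K').injective p
  have h1 := adjoin_simple_eq_adjoin_pow_expChar_pow_of_isSeparable' (IntermediateField.adjoin k {t, s}) K' δ p 1
  have h2 : δ ∈ (IntermediateField.adjoin k {t, s})⟮δ ^ p ^ 1⟯ := by
    rw [← h1]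
    exact mem_adjoin_simple_self _ _
  have hint : IsIntegral (IntermediateField.adjoin k {t, s}) (δ ^ p ^ 1) :=
    Algebra.IsSeparable.isIntegral _ _
  rw [← IntermediateField.mem_toSubalgebra, IntermediateField.adjoin_simple_toSubalgebra_of_isAlgebraic
    hint.isAlgebraic] at h2
  have key : ∀ x ∈ Algebra.adjoin (IntermediateField.adjoin k {t, s}) {δ ^ p ^ 1}, x ∈ A := by
    intro x hx
    induction hx using Algebra.adjoin_induction with
    | mem x hx =>
      rw [Set.mem_singleton_iff] at hx
      rw [hx, pow_one]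
      exact hA _
    | algebraMap a => exact hF _ a.2
    | add x y _ _ hx hy => exact add_mem hx hy
    | mul x y _ _ hx hy => exact mul_mem hx hy
  exact key δ h2

/-- **An element killed by both derivations is a `p`-th power.** -/
theorem exists_pthRoot (hk : ∀ a : k, ∃ b : k, b ^ p = a) (t s : K')
    [Algebra.IsSeparable (IntermediateField.adjoin k {t, s}) K'] (Dt Ds : Derivation k K' K')
    (htt : Dt t = 1) (hts : Dt s = 0) (hss : Ds s = 1) (δ : K') (h1 : Dt δ = 0) (h2 : Ds δ = 0) :
    ∃ y : K', y ^ p = δ := by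
  have hp : p.Prime := Fact.out
  have hexp : ExpChar K' p := ExpChar.prime hp
  have hpow : ∀ (D : Derivation k K' K') (x : K'), D (x ^ p) = 0 := by
    intro D x
    rw [Derivation.leibniz_pow]
    simp
  -- the subring of p-th powers
  set L0 : Subring K' := (frobenius K' p).range with hL0
  have hL0D : ∀ D : Derivation k K' K', ∀ x ∈ L0, D x = 0 := by
    rintro D _ ⟨y, rfl⟩
    rw [frobenius_def]
    exact hpow D y
  set L1 : Subring K' := (Algebra.adjoin L0 {s}).toSubring with hL1
  have hsL1 : s ∈ L1 := Algebra.subset_adjoin rfl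
  have hL01 : ∀ x ∈ L0, x ∈ L1 := fun x hx => (Algebra.adjoin L0 {s}).algebraMap_mem ⟨x, hx⟩
  have hL1D : ∀ x ∈ L1, Dt x = 0 := by
    intro x hx
    change x ∈ Algebra.adjoin L0 {s} at hx
    induction hx using Algebra.adjoin_induction with
    | mem x hx => rw [Set.mem_singleton_iff] at hx; rw [hx]; exact hts
    | algebraMap a => exact hL0D Dt _ a.2
    | add x y _ _ hx hy => rw [map_add, hx, hy, add_zero]
    | mul x y _ _ hx hy => rw [Derivation.leibniz, hx, hy, smul_zero, smul_zero, add_zero]
  have hA : δ ∈ (Algebra.adjoin L1 {t}).toSubring := by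
    apply pthRoot_mem p hk t s
    · intro x
      have hx : x ^ p ∈ L1 := hL01 _ ⟨x, frobenius_def p x⟩
      exact (Algebra.adjoin L1 {t}).algebraMap_mem ⟨_, hx⟩
    · exact Algebra.subset_adjoin rfl
    · exact (Algebra.adjoin L1 {t}).algebraMap_mem ⟨_, hsL1⟩
  have hδ1 : δ ∈ L1 := pthRoot_one p Dt t htt L1 hL1D (hL01 _ ⟨t, frobenius_def p t⟩) δ hA h1
  have hδ0 : δ ∈ L0 := pthRoot_one p Ds s hss L0 (hL0D Ds) ⟨s, frobenius_def p s⟩ δ hδ1 h2
  obtain ⟨y, hy⟩ := hδ0
  exact ⟨y, by rw [← hy, frobenius_def]⟩

end TwoVar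

end Pool.Agent.Lib.MP_4318ff_ag
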